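import Pool.Agent.V8H32.CF.Defs
import Pool.Agent.H691R3.PrimeSum

/-!
# Euler products of the weight parts: absolute convergence, products, translates, continuation
-/

set_option autoImplicit false
set_option linter.unusedSectionVars false

namespace Pool.Agent.V8H25.CF

open NumberField IsDedekindDomain Pool.Agent.V8H32.CF Pool.Agent.TH958.BV Filter Topology

variable {K : Type} [Field K] [NumberField K]

/-! ### The local factors -/

lemma nv_eq (v : HeightOneSpectrum (𝓞 K)) : nv v = Pool.Agent.H691R3.nm v := rfl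

lemma two_le_nv (v : HeightOneSpectrum (𝓞 K)) : 2 ≤ nv v := Pool.Agent.H691R3.two_le_nm v

lemma nv_pos (v : HeightOneSpectrum (𝓞 K)) : 0 < nv v := by
  have := two_le_nv v
  omega

lemma nv_ne_zero (v : HeightOneSpectrum (𝓞 K)) : (nv v : ℂ) ≠ 0 := by
  have := nv_pos v
  exact_mod_cast this.ne'

lemma lf_zero (x : ℂ) : lf 0 x = 1 := by
  unfold lf
  exact Finsupp.prod_zero_index

lemma lf_single (z : ℂ) (m : ℤ) (x : ℂ) : lf (Finsupp.single z m) x = (1 - z * x) ^ (-m) := by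
  unfold lf
  rw [Finsupp.prod_single_index]
  simp

lemma lf_add (c c' : ℂ →₀ ℤ) (x : ℂ) (h : ∀ z ∈ c.support, 1 - z * x ≠ 0)
    (h' : ∀ z ∈ c'.support, 1 - z * x ≠ 0) : lf (c + c') x = lf c x * lf c' x := by
  classical
  unfold lf
  refine Finsupp.prod_add_index (fun z _ => by simp) fun z hz m n => ?_
  have hz' : 1 - z * x ≠ 0 := by
    rcases Finset.mem_union.1 hz with hz | hz
    · exact h z hz
    · exact h' z hz
  rw [neg_add, zpow_add₀ hz']

lemma lf_smul (m : ℤ) (c : ℂ →₀ ℤ) (x : ℂ) : lf (m • c) x = lf c x ^ m := by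
  classical
  unfold lf
  rw [Finsupp.prod_of_support_subset (m • c) (s := c.support) Finsupp.support_smul
    (fun z k => (1 - z * x) ^ (-k)) (fun z _ => by simp), Finsupp.prod, ← Finset.prod_zpow]
  refine Finset.prod_congr rfl fun z _ => ?_
  rw [← zpow_mul]
  congr 1
  simp
  ring

lemma lf_ne_zero {c : ℂ →₀ ℤ} {x : ℂ} (h : ∀ z ∈ c.support, 1 - z * x ≠ 0) : lf c x ≠ 0 := by
  unfold lf Finsupp.prod
  exact Finset.prod_ne_zero_iff.2 fun z hz => zpow_ne_zero _ (h z hz)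

/-- The logarithm of the local factor. -/
noncomputable def lg (c : ℂ →₀ ℤ) (x : ℂ) : ℂ :=
  c.sum fun z m => -(m : ℂ) * Complex.log (1 - z * x)

lemma exp_lg {c : ℂ →₀ ℤ} {x : ℂ} (h : ∀ z ∈ c.support, 1 - z * x ≠ 0) :
    Complex.exp (lg c x) = lf c x := by
  unfold lg lf Finsupp.sum Finsupp.prod
  rw [Complex.exp_sum]
  refine Finset.prod_congr rfl fun z hz => ?_
  show Complex.exp (-(c z : ℂ) * Complex.log (1 - z * x)) = (1 - z * x) ^ (-(c z))
  rw [show -(c z : ℂ) * Complex.log (1 - z * x) = ((-(c z) : ℤ) : ℂ) * Complex.log (1 - z * x) by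
    push_cast; ring, Complex.exp_int_mul, Complex.exp_log (h z hz)]

lemma norm_lg_le {c : ℂ →₀ ℤ} {x : ℂ} {r : ℝ} (hr : r ≤ 1 / 2)
    (h : ∀ z ∈ c.support, ‖z * x‖ ≤ r) :
    ‖lg c x‖ ≤ ((c.sum fun _ m => m.natAbs : ℕ) : ℝ) * (3 / 2 * r) := by
  unfold lg Finsupp.sum
  push_cast
  rw [Finset.sum_mul]
  refine (norm_sum_le _ _).trans (Finset.sum_le_sum fun z hz => ?_)
  rw [norm_mul, norm_neg]
  have h1 : ‖Complex.log (1 + -(z * x))‖ ≤ 3 / 2 * ‖-(z * x)‖ :=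
    Complex.norm_log_one_add_half_le_self (by rw [norm_neg]; exact (h z hz).trans hr)
  rw [norm_neg, ← sub_eq_add_neg] at h1
  have h2 : ‖((c z : ℤ) : ℂ)‖ = ((c z).natAbs : ℝ) := by
    rw [Complex.norm_intCast, Nat.cast_natAbs]
    push_cast
    rfl
  rw [h2]
  refine mul_le_mul_of_nonneg_left (h1.trans ?_) (by positivity)
  have := h z hz
  linarith

lemma norm_le_of_wpart {v : HeightOneSpectrum (𝓞 K)} {w : ℕ} {c : ℂ →₀ ℤ} {s z : ℂ}
    (hz : z ∈ (wpart (nv v) w c).support) :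
    ‖z * (nv v : ℂ) ^ (-s)‖ = (nv v : ℝ) ^ (-(s.re - (w : ℝ) / 2)) := by
  classical
  have hz' : ‖z‖ = (nv v : ℝ) ^ ((w : ℝ) / 2) := by
    unfold wpart at hz
    rw [Finsupp.support_filter] at hz
    exact (Finset.mem_filter.1 hz).2
  rw [norm_mul, hz', Complex.norm_natCast_cpow_of_pos (nv_pos v),
    ← Real.rpow_add (by exact_mod_cast nv_pos v)]
  congr 1
  simp
  ring

lemma rpow_le_half {v : HeightOneSpectrum (𝓞 K)} {x : ℝ} (hx : 1 < x) :
    (nv v : ℝ) ^ (-x) ≤ 1 / 2 := by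
  have h2 : (2 : ℝ) ≤ nv v := by exact_mod_cast two_le_nv v
  calc (nv v : ℝ) ^ (-x) ≤ (nv v : ℝ) ^ (-1 : ℝ) :=
        Real.rpow_le_rpow_of_exponent_le (by linarith) (by linarith)
    _ = (nv v : ℝ)⁻¹ := by rw [Real.rpow_neg_one]
    _ ≤ (2 : ℝ)⁻¹ := inv_anti₀ (by norm_num) h2
    _ = 1 / 2 := by norm_num

lemma one_sub_ne_zero_of_wpart {v : HeightOneSpectrum (𝓞 K)} {w : ℕ} {c : ℂ →₀ ℤ} {s : ℂ}
    (hs : (w : ℝ) / 2 + 1 < s.re) :
    ∀ z ∈ (wpart (nv v) w c).support, 1 - z * (nv v : ℂ) ^ (-s) ≠ 0 := by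
  intro z hz h0
  have h1 := norm_le_of_wpart (s := s) hz
  have h2 : (nv v : ℝ) ^ (-(s.re - (w : ℝ) / 2)) ≤ 1 / 2 := rpow_le_half (by linarith)
  rw [← sub_eq_zero.1 h0] at h1
  simp only [norm_one] at h1
  rw [← h1] at h2
  norm_num at h2

lemma sum_filter_le (p : ℂ → Prop) [DecidablePred p] (c : ℂ →₀ ℤ) :
    ((c.filter p).sum fun _ m => m.natAbs) ≤ c.sum fun _ m => m.natAbs := by
  classical
  unfold Finsupp.sum
  rw [Finsupp.support_filter]
  calc ∑ a ∈ c.support.filter p, ((c.filter p) a).natAbs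
      = ∑ a ∈ c.support.filter p, (c a).natAbs := by
        refine Finset.sum_congr rfl fun a ha => ?_
        rw [Finsupp.filter_apply_pos p c (Finset.mem_filter.1 ha).2]
    _ ≤ ∑ a ∈ c.support, (c a).natAbs :=
        Finset.sum_le_sum_of_subset (Finset.filter_subset _ _)

lemma sum_wpart_le (Q : ℝ) (w : ℕ) (c : ℂ →₀ ℤ) :
    ((wpart Q w c).sum fun _ m => m.natAbs) ≤ c.sum fun _ m => m.natAbs := by
  classical
  unfold wpart
  exact sum_filter_le _ c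

open Classical in
/-- The logarithm of the Euler factor, `0` for `v ∈ S`. -/
noncomputable def lv (S : Finset (HeightOneSpectrum (𝓞 K)))
    (c : HeightOneSpectrum (𝓞 K) → ℂ →₀ ℤ) (w : ℕ) (s : ℂ) (v : HeightOneSpectrum (𝓞 K)) : ℂ :=
  if v ∈ S then 0 else lg (wpart (nv v) w (c v)) ((nv v : ℂ) ^ (-s))

lemma lv_summable {S : Finset (HeightOneSpectrum (𝓞 K))} {c : HeightOneSpectrum (𝓞 K) → ℂ →₀ ℤ}
    (hB : Bdd S c) {w : ℕ} {s : ℂ} (hs : (w : ℝ) / 2 + 1 < s.re) : Summable (lv S c w s) := by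
  classical
  obtain ⟨B, hB⟩ := hB
  refine Summable.of_norm_bounded
    (((Pool.Agent.H691R3.nm_summable (K := K) (x := s.re - (w : ℝ) / 2) (by linarith)).mul_left
      ((B : ℝ) * (3 / 2)))) fun v => ?_
  unfold lv
  split_ifs with hv
  · rw [norm_zero]
    positivity
  · have h1 := norm_lg_le (c := wpart (nv v) w (c v)) (x := (nv v : ℂ) ^ (-s))
      (r := (nv v : ℝ) ^ (-(s.re - (w : ℝ) / 2))) (rpow_le_half (by linarith))
      (fun z hz => (norm_le_of_wpart hz).le)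
    refine h1.trans ?_
    have h2 : (((wpart (nv v) w (c v)).sum fun _ m => m.natAbs : ℕ) : ℝ) ≤ B := by
      exact_mod_cast (sum_wpart_le _ _ _).trans (hB v hv)
    have h3 : (0 : ℝ) ≤ (nv v : ℝ) ^ (-(s.re - (w : ℝ) / 2)) := by positivity
    calc _ ≤ (B : ℝ) * (3 / 2 * (nv v : ℝ) ^ (-(s.re - (w : ℝ) / 2))) :=
          mul_le_mul_of_nonneg_right h2 (by positivity)
      _ = (B : ℝ) * (3 / 2) * (Pool.Agent.H691R3.nm v : ℝ) ^ (-(s.re - (w : ℝ) / 2)) := by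
          rw [← nv_eq]; ring

open Classical in
lemma exp_lv {S : Finset (HeightOneSpectrum (𝓞 K))} {c : HeightOneSpectrum (𝓞 K) → ℂ →₀ ℤ}
    {w : ℕ} {s : ℂ} (hs : (w : ℝ) / 2 + 1 < s.re) (v : HeightOneSpectrum (𝓞 K)) :
    Complex.exp (lv S c w s v) =
      if v ∈ S then 1 else lf (wpart (nv v) w (c v)) ((nv v : ℂ) ^ (-s)) := by
  unfold lv
  split_ifs with hv
  · exact Complex.exp_zero
  · exact exp_lg (one_sub_ne_zero_of_wpart hs)

open Classical in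
lemma LW_hasProd {S : Finset (HeightOneSpectrum (𝓞 K))} {c : HeightOneSpectrum (𝓞 K) → ℂ →₀ ℤ}
    (hB : Bdd S c) {w : ℕ} {s : ℂ} (hs : (w : ℝ) / 2 + 1 < s.re) :
    HasProd (fun v : HeightOneSpectrum (𝓞 K) => if v ∈ S then 1 else
      lf (wpart (nv v) w (c v)) ((nv v : ℂ) ^ (-s))) (Complex.exp (∑' v, lv S c w s v)) := by
  have h := (lv_summable hB hs).hasSum.cexp
  have e : Complex.exp ∘ lv S c w s = fun v : HeightOneSpectrum (𝓞 K) => if v ∈ S then 1 else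
      lf (wpart (nv v) w (c v)) ((nv v : ℂ) ^ (-s)) := funext fun v => exp_lv hs v
  rw [e] at h
  exact h

open Classical in
lemma LW_multipliable {S : Finset (HeightOneSpectrum (𝓞 K))}
    {c : HeightOneSpectrum (𝓞 K) → ℂ →₀ ℤ}
    (hB : Bdd S c) {w : ℕ} {s : ℂ} (hs : (w : ℝ) / 2 + 1 < s.re) :
    Multipliable (fun v : HeightOneSpectrum (𝓞 K) => if v ∈ S then 1 else
      lf (wpart (nv v) w (c v)) ((nv v : ℂ) ^ (-s))) := (LW_hasProd hB hs).multipliable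

lemma LW_eq_exp {S : Finset (HeightOneSpectrum (𝓞 K))} {c : HeightOneSpectrum (𝓞 K) → ℂ →₀ ℤ}
    (hB : Bdd S c) {w : ℕ} {s : ℂ} (hs : (w : ℝ) / 2 + 1 < s.re) :
    LW S c w s = Complex.exp (∑' v, lv S c w s v) := (LW_hasProd hB hs).tprod_eq

lemma LW_ne_zero {S : Finset (HeightOneSpectrum (𝓞 K))} {c : HeightOneSpectrum (𝓞 K) → ℂ →₀ ℤ}
    (hB : Bdd S c) {w : ℕ} {s : ℂ} (hs : (w : ℝ) / 2 + 1 < s.re) : LW S c w s ≠ 0 := by
  rw [LW_eq_exp hB hs]
  exact Complex.exp_ne_zero _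

open Classical in
theorem LW_facts {S : Finset (HeightOneSpectrum (𝓞 K))} {c : HeightOneSpectrum (𝓞 K) → ℂ →₀ ℤ}
    (hB : Bdd S c) {w : ℕ} {s : ℂ} (hs : (w : ℝ) / 2 + 1 < s.re) :
    Multipliable (fun v : HeightOneSpectrum (𝓞 K) => if v ∈ S then 1 else
      lf (wpart (nv v) w (c v)) ((nv v : ℂ) ^ (-s))) ∧ LW S c w s ≠ 0 :=
  ⟨LW_multipliable hB hs, LW_ne_zero hB hs⟩

/-! ### Boundedness -/

lemma sum_add_le (c c' : ℂ →₀ ℤ) : ((c + c').sum fun _ m => m.natAbs) ≤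
    (c.sum fun _ m => m.natAbs) + c'.sum fun _ m => m.natAbs := by
  classical
  rw [Finsupp.sum_of_support_subset (c + c') (s := c.support ∪ c'.support) Finsupp.support_add
      (fun _ m => m.natAbs) (fun _ _ => rfl),
    Finsupp.sum_of_support_subset c (s := c.support ∪ c'.support) Finset.subset_union_left
      (fun _ m => m.natAbs) (fun _ _ => rfl),
    Finsupp.sum_of_support_subset c' (s := c.support ∪ c'.support) Finset.subset_union_right
      (fun _ m => m.natAbs) (fun _ _ => rfl), ← Finset.sum_add_distrib]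
  refine Finset.sum_le_sum fun z _ => ?_
  simp only [Finsupp.coe_add, Pi.add_apply]
  exact Int.natAbs_add_le _ _

lemma sum_zsmul_le (m : ℤ) (c : ℂ →₀ ℤ) : ((m • c).sum fun _ m => m.natAbs) ≤
    m.natAbs * c.sum fun _ m => m.natAbs := by
  classical
  rw [Finsupp.sum_of_support_subset (m • c) (s := c.support) Finsupp.support_smul
      (fun _ m => m.natAbs) (fun _ _ => rfl), Finsupp.sum, Finset.mul_sum]
  refine Finset.sum_le_sum fun z _ => ?_
  simp [Int.natAbs_mul]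

lemma bdd_add {S : Finset (HeightOneSpectrum (𝓞 K))} {c c' : HeightOneSpectrum (𝓞 K) → ℂ →₀ ℤ}
    (h : Bdd S c) (h' : Bdd S c') : Bdd S (fun v => c v + c' v) := by
  obtain ⟨B, hB⟩ := h
  obtain ⟨B', hB'⟩ := h'
  exact ⟨B + B', fun v hv => (sum_add_le _ _).trans (add_le_add (hB v hv) (hB' v hv))⟩

lemma bdd_zsmul {S : Finset (HeightOneSpectrum (𝓞 K))} {c : HeightOneSpectrum (𝓞 K) → ℂ →₀ ℤ}
    (h : Bdd S c) (m : ℤ) : Bdd S (fun v => m • c v) := by
  obtain ⟨B, hB⟩ := h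
  exact ⟨m.natAbs * B, fun v hv => (sum_zsmul_le _ _).trans (Nat.mul_le_mul_left _ (hB v hv))⟩

lemma bdd_const (S : Finset (HeightOneSpectrum (𝓞 K))) (c : ℂ →₀ ℤ) : Bdd S (fun _ => c) :=
  ⟨_, fun _ _ => le_rfl⟩

lemma bdd_mono {S S' : Finset (HeightOneSpectrum (𝓞 K))} {c : HeightOneSpectrum (𝓞 K) → ℂ →₀ ℤ}
    (h : Bdd S c) (hS : S ⊆ S') : Bdd S' c := by
  obtain ⟨B, hB⟩ := h
  exact ⟨B, fun v hv => hB v fun h => hv (hS h)⟩

lemma bdd_finset_sum {ι : Type} {S : Finset (HeightOneSpectrum (𝓞 K))} (F : Finset ι)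
    {c : ι → HeightOneSpectrum (𝓞 K) → ℂ →₀ ℤ} (h : ∀ i ∈ F, Bdd S (c i)) :
    Bdd S (fun v => ∑ i ∈ F, c i v) := by
  classical
  induction F using Finset.induction_on with
  | empty => simpa using bdd_const S 0
  | insert a F ha ih =>
    simp_rw [Finset.sum_insert ha]
    exact bdd_add (h a (Finset.mem_insert_self _ _))
      (ih fun i hi => h i (Finset.mem_insert_of_mem hi))

/-! ### Sums and multiples -/

lemma wpart_add (Q : ℝ) (w : ℕ) (c c' : ℂ →₀ ℤ) :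
    wpart Q w (c + c') = wpart Q w c + wpart Q w c' := by
  classical
  unfold wpart
  exact Finsupp.filter_add

lemma wpart_zsmul (Q : ℝ) (w : ℕ) (m : ℤ) (c : ℂ →₀ ℤ) :
    wpart Q w (m • c) = m • wpart Q w c := by
  classical
  unfold wpart
  exact Finsupp.filter_smul

lemma wpart_zero (Q : ℝ) (w : ℕ) : wpart Q w 0 = 0 := by
  classical
  unfold wpart
  exact Finsupp.filter_zero _

theorem LW_add {S : Finset (HeightOneSpectrum (𝓞 K))} {c c' : HeightOneSpectrum (𝓞 K) → ℂ →₀ ℤ}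
    (hB : Bdd S c) (hB' : Bdd S c') {w : ℕ} {s : ℂ} (hs : (w : ℝ) / 2 + 1 < s.re) :
    LW S (fun v => c v + c' v) w s = LW S c w s * LW S c' w s := by
  classical
  have h1 := LW_multipliable hB hs
  have h2 := LW_multipliable hB' hs
  unfold LW
  rw [← h1.tprod_mul h2]
  refine tprod_congr fun v => ?_
  split_ifs with hv
  · rw [one_mul]
  · rw [wpart_add, lf_add _ _ _ (one_sub_ne_zero_of_wpart hs) (one_sub_ne_zero_of_wpart hs)]

theorem LW_zsmul (m : ℤ) {S : Finset (HeightOneSpectrum (𝓞 K))}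
    {c : HeightOneSpectrum (𝓞 K) → ℂ →₀ ℤ}
    (hB : Bdd S c) {w : ℕ} {s : ℂ} (hs : (w : ℝ) / 2 + 1 < s.re) :
    LW S (fun v => m • c v) w s = LW S c w s ^ m := by
  classical
  rw [LW_eq_exp hB hs, ← Complex.exp_int_mul, ← tsum_mul_left]
  have h := ((lv_summable hB hs).mul_left (m : ℂ)).hasSum.cexp
  rw [← h.tprod_eq]
  unfold LW
  refine tprod_congr fun v => ?_
  simp only [Function.comp]
  rw [Complex.exp_int_mul, exp_lv hs]
  split_ifs with hv
  · rw [one_zpow]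
  · rw [wpart_zsmul, lf_smul]

theorem LW_zero (S : Finset (HeightOneSpectrum (𝓞 K))) (w : ℕ) (s : ℂ) :
    LW S (fun _ => 0) w s = 1 := by
  classical
  unfold LW
  refine (tprod_congr fun v => ?_).trans tprod_one
  split_ifs with hv
  · rfl
  · rw [wpart_zero, lf_zero]

theorem LW_finset_sum {ι : Type} {S : Finset (HeightOneSpectrum (𝓞 K))} (F : Finset ι)
    {c : ι → HeightOneSpectrum (𝓞 K) → ℂ →₀ ℤ} (h : ∀ i ∈ F, Bdd S (c i))
    {w : ℕ} {s : ℂ} (hs : (w : ℝ) / 2 + 1 < s.re) :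
    LW S (fun v => ∑ i ∈ F, c i v) w s = ∏ i ∈ F, LW S (c i) w s := by
  classical
  induction F using Finset.induction_on with
  | empty => simpa using LW_zero S w s
  | insert a F ha ih =>
    simp_rw [Finset.sum_insert ha]
    rw [LW_add (h a (Finset.mem_insert_self _ _))
      (bdd_finset_sum F fun i hi => h i (Finset.mem_insert_of_mem hi)) hs, Finset.prod_insert ha,
      ih fun i hi => h i (Finset.mem_insert_of_mem hi)]

/-- The weight part depends only on the divisors at the primes outside `S`. -/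
lemma LW_congr {S : Finset (HeightOneSpectrum (𝓞 K))} {c c' : HeightOneSpectrum (𝓞 K) → ℂ →₀ ℤ}
    (h : ∀ v, v ∉ S → c v = c' v) (w : ℕ) (s : ℂ) : LW S c w s = LW S c' w s := by
  classical
  unfold LW
  refine tprod_congr fun v => ?_
  split_ifs with hv
  · rfl
  · rw [h v hv]

lemma bdd_congr {S : Finset (HeightOneSpectrum (𝓞 K))} {c c' : HeightOneSpectrum (𝓞 K) → ℂ →₀ ℤ}
    (hB : Bdd S c) (h : ∀ v, v ∉ S → c v = c' v) : Bdd S c' := by
  obtain ⟨B, hB⟩ := hB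
  exact ⟨B, fun v hv => by rw [← h v hv]; exact hB v hv⟩

/-! ### Tate twists -/

/-- The divisor of the points `Q^j z`. -/
noncomputable def sh (Q : ℂ) (j : ℕ) (c : ℂ →₀ ℤ) : ℂ →₀ ℤ := c.mapDomain (fun z => Q ^ j * z)

lemma inj_mul {Q : ℂ} (hQ : Q ≠ 0) (j : ℕ) : Function.Injective (fun z : ℂ => Q ^ j * z) :=
  fun _ _ h => mul_left_cancel₀ (pow_ne_zero j hQ) h

lemma sum_sh {Q : ℂ} (hQ : Q ≠ 0) (j : ℕ) (c : ℂ →₀ ℤ) :
    ((sh Q j c).sum fun _ m => m.natAbs) = c.sum fun _ m => m.natAbs := by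
  unfold sh
  exact Finsupp.sum_mapDomain_index_inj (inj_mul hQ j)

/-- the power sums of a Tate twist -/
lemma sh_powerSum {Q : ℂ} (hQ : Q ≠ 0) (j : ℕ) (c : ℂ →₀ ℤ) (e : ℕ) :
    ((sh Q j c).sum fun z m => (m : ℂ) * z ^ e) =
      (Q ^ e) ^ j * c.sum fun z m => (m : ℂ) * z ^ e := by
  unfold sh
  rw [Finsupp.sum_mapDomain_index_inj (inj_mul hQ j), Finsupp.sum, Finsupp.sum, Finset.mul_sum]
  refine Finset.sum_congr rfl fun z _ => ?_
  rw [mul_pow, ← pow_mul, ← pow_mul, mul_comm j e]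
  ring

lemma bdd_sh {S : Finset (HeightOneSpectrum (𝓞 K))} {c : HeightOneSpectrum (𝓞 K) → ℂ →₀ ℤ}
    (h : Bdd S c) (j : ℕ) : Bdd S (fun v => sh (nv v) j (c v)) := by
  obtain ⟨B, hB⟩ := h
  exact ⟨B, fun v hv => (sum_sh (nv_ne_zero v) j (c v)).le.trans (hB v hv)⟩

lemma norm_twist (v : HeightOneSpectrum (𝓞 K)) (j : ℕ) (z : ℂ) :
    ‖(nv v : ℂ) ^ j * z‖ = (nv v : ℝ) ^ (j : ℝ) * ‖z‖ := by
  rw [norm_mul, norm_pow, Complex.norm_natCast, Real.rpow_natCast]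

lemma wpart_sh (v : HeightOneSpectrum (𝓞 K)) (j w : ℕ) (c : ℂ →₀ ℤ) :
    wpart (nv v) (w + 2 * j) (sh (nv v) j c) = sh (nv v) j (wpart (nv v) w c) := by
  classical
  have hq : (0 : ℝ) < nv v := by exact_mod_cast nv_pos v
  have hi := inj_mul (nv_ne_zero v) j
  have key : ∀ z : ℂ, (‖(nv v : ℂ) ^ j * z‖ = (nv v : ℝ) ^ (((w + 2 * j : ℕ) : ℝ) / 2)) ↔
      ‖z‖ = (nv v : ℝ) ^ ((w : ℝ) / 2) := by
    intro z
    have e : (((w + 2 * j : ℕ) : ℝ) / 2) = (j : ℝ) + (w : ℝ) / 2 := by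
      push_cast
      ring
    rw [norm_twist, e, Real.rpow_add hq]
    constructor
    · intro h
      exact mul_left_cancel₀ (Real.rpow_pos_of_pos hq _).ne' h
    · intro h
      rw [h]
  ext y
  unfold wpart sh
  by_cases hy : ∃ z, (nv v : ℂ) ^ j * z = y
  · obtain ⟨z, rfl⟩ := hy
    rw [show (Finsupp.mapDomain (fun z => (nv v : ℂ) ^ j * z)
        (Finsupp.filter (fun z => ‖z‖ = (nv v : ℝ) ^ ((w : ℝ) / 2)) c)) ((nv v : ℂ) ^ j * z) =
        (Finsupp.filter (fun z => ‖z‖ = (nv v : ℝ) ^ ((w : ℝ) / 2)) c) z from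
        Finsupp.mapDomain_apply hi _ z]
    by_cases hz : ‖z‖ = (nv v : ℝ) ^ ((w : ℝ) / 2)
    · rw [Finsupp.filter_apply, Finsupp.filter_apply, if_pos ((key z).2 hz), if_pos hz]
      exact Finsupp.mapDomain_apply hi c z
    · rw [Finsupp.filter_apply, Finsupp.filter_apply, if_neg (fun h => hz ((key z).1 h)),
        if_neg hz]
  · have h1 : y ∉ Set.range (fun z : ℂ => (nv v : ℂ) ^ j * z) := fun ⟨z, hz⟩ => hy ⟨z, hz⟩
    rw [Finsupp.mapDomain_of_notMem_range _ _ h1]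
    rw [Finsupp.filter_apply]
    split_ifs
    · exact Finsupp.mapDomain_of_notMem_range _ _ h1
    · rfl

lemma lf_sh (v : HeightOneSpectrum (𝓞 K)) (j : ℕ) (c : ℂ →₀ ℤ) (s : ℂ) :
    lf (sh (nv v) j c) ((nv v : ℂ) ^ (-(s + j))) = lf c ((nv v : ℂ) ^ (-s)) := by
  unfold lf sh
  rw [Finsupp.prod_mapDomain_index_inj (inj_mul (nv_ne_zero v) j)]
  refine Finset.prod_congr rfl fun z _ => ?_
  congr 2
  rw [neg_add, Complex.cpow_add _ _ (nv_ne_zero v), Complex.cpow_neg _ (j : ℂ),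
    Complex.cpow_natCast]
  have := pow_ne_zero j (nv_ne_zero v)
  field_simp

theorem LW_sh (S : Finset (HeightOneSpectrum (𝓞 K))) (c : HeightOneSpectrum (𝓞 K) → ℂ →₀ ℤ)
    (j w : ℕ) (s : ℂ) :
    LW S (fun v => sh (nv v) j (c v)) (w + 2 * j) (s + j) = LW S c w s := by
  classical
  unfold LW
  refine tprod_congr fun v => ?_
  split_ifs with hv
  · rfl
  · rw [wpart_sh, lf_sh]

lemma wpart_sh_small (v : HeightOneSpectrum (𝓞 K)) {j w : ℕ} (hw : w < 2 * j) {c : ℂ →₀ ℤ}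
    (hc : ∀ z ∈ c.support, ∃ u : ℕ, ‖z‖ = (nv v : ℝ) ^ ((u : ℝ) / 2)) :
    wpart (nv v) w (sh (nv v) j c) = 0 := by
  classical
  have hq : (1 : ℝ) < nv v := by
    have := two_le_nv v
    have h2 : (2 : ℝ) ≤ nv v := by exact_mod_cast this
    linarith
  have hi := inj_mul (nv_ne_zero v) j
  unfold wpart
  rw [Finsupp.filter_eq_zero_iff]
  intro y hy
  by_contra h0
  have hy2 : y ∈ (sh (nv v) j c).support := Finsupp.mem_support_iff.2 h0
  unfold sh at hy2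
  rw [Finsupp.mapDomain_support_of_injective hi] at hy2
  obtain ⟨z, hz, rfl⟩ := Finset.mem_image.1 hy2
  obtain ⟨u, hu⟩ := hc z hz
  rw [norm_twist, hu, ← Real.rpow_add (by linarith)] at hy
  have h3 := (Real.rpow_right_inj (by linarith) (by linarith)).1 hy
  have h4 : (w : ℝ) = 2 * j + u := by linarith
  have h5 : w = 2 * j + u := by exact_mod_cast h4
  omega

theorem LW_sh_small {S : Finset (HeightOneSpectrum (𝓞 K))}
    {c : HeightOneSpectrum (𝓞 K) → ℂ →₀ ℤ} {j w : ℕ} (hw : w < 2 * j)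
    (hc : ∀ v, v ∉ S → ∀ z ∈ (c v).support, ∃ u : ℕ, ‖z‖ = (nv v : ℝ) ^ ((u : ℝ) / 2)) (s : ℂ) :
    LW S (fun v => sh (nv v) j (c v)) w s = 1 := by
  classical
  unfold LW
  refine (tprod_congr fun v => ?_).trans tprod_one
  split_ifs with hv
  · rfl
  · rw [wpart_sh_small v hw (hc v hv), lf_zero]

lemma wpart_single_zero (v : HeightOneSpectrum (𝓞 K)) (m : ℤ) :
    wpart (nv v) 0 (Finsupp.single 1 m) = Finsupp.single 1 m := by
  classical
  unfold wpart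
  rw [Finsupp.filter_single_of_pos]
  simp

lemma wpart_single_pos (v : HeightOneSpectrum (𝓞 K)) {w : ℕ} (hw : 0 < w) (m : ℤ) :
    wpart (nv v) w (Finsupp.single 1 m) = 0 := by
  classical
  unfold wpart
  rw [Finsupp.filter_single_of_neg]
  have hq : (1 : ℝ) < nv v := by
    have := two_le_nv v
    have h2 : (2 : ℝ) ≤ nv v := by exact_mod_cast this
    linarith
  have hw' : (0 : ℝ) < (w : ℝ) / 2 := by positivity
  rw [norm_one]
  exact (Real.one_lt_rpow hq hw').ne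

open Classical in
theorem LW_single_zero (S : Finset (HeightOneSpectrum (𝓞 K))) (m : ℤ) (s : ℂ) :
    LW S (fun _ => Finsupp.single 1 m) 0 s = ∏' v : HeightOneSpectrum (𝓞 K),
      if v ∈ S then 1 else (1 - (nv v : ℂ) ^ (-s)) ^ (-m) := by
  unfold LW
  refine tprod_congr fun v => ?_
  split_ifs with hv
  · rfl
  · rw [wpart_single_zero, lf_single, one_mul]

theorem LW_single_pos (S : Finset (HeightOneSpectrum (𝓞 K))) {w : ℕ} (hw : 0 < w) (m : ℤ)
    (s : ℂ) : LW S (fun _ => Finsupp.single 1 m) w s = 1 := by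
  classical
  unfold LW
  refine (tprod_congr fun v => ?_).trans tprod_one
  split_ifs with hv
  · rfl
  · rw [wpart_single_pos v hw, lf_zero]

/-! ### Meromorphic continuation -/

/-- `L` agrees for `Re s > σ` with a function meromorphic on `ℂ`. -/
def Mero (L : ℂ → ℂ) (σ : ℝ) : Prop :=
  ∃ Λ : ℂ → ℂ, (∀ s, MeromorphicAt Λ s) ∧ ∀ s, σ < s.re → Λ s = L s

lemma Mero.congr {L L' : ℂ → ℂ} {σ : ℝ} (h : Mero L σ) (e : ∀ s, σ < s.re → L s = L' s) :
    Mero L' σ := by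
  obtain ⟨Λ, h1, h2⟩ := h
  exact ⟨Λ, h1, fun s hs => (h2 s hs).trans (e s hs)⟩

lemma Mero.mono {L : ℂ → ℂ} {σ σ' : ℝ} (h : Mero L σ) (hσ : σ ≤ σ') : Mero L σ' := by
  obtain ⟨Λ, h1, h2⟩ := h
  exact ⟨Λ, h1, fun s hs => h2 s (lt_of_le_of_lt hσ hs)⟩

lemma Mero.const (c : ℂ) (σ : ℝ) : Mero (fun _ => c) σ :=
  ⟨fun _ => c, fun s => MeromorphicAt.const c s, fun _ _ => rfl⟩

lemma Mero.of_meromorphic {L : ℂ → ℂ} (h : ∀ s, MeromorphicAt L s) (σ : ℝ) : Mero L σ :=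
  ⟨L, h, fun _ _ => rfl⟩

lemma Mero.mul {L L' : ℂ → ℂ} {σ : ℝ} (h : Mero L σ) (h' : Mero L' σ) :
    Mero (fun s => L s * L' s) σ := by
  obtain ⟨Λ, h1, h2⟩ := h
  obtain ⟨Λ', h3, h4⟩ := h'
  exact ⟨fun s => Λ s * Λ' s, fun s => (h1 s).mul (h3 s), fun s hs => by
    show Λ s * Λ' s = _
    rw [h2 s hs, h4 s hs]⟩

lemma Mero.inv {L : ℂ → ℂ} {σ : ℝ} (h : Mero L σ) : Mero (fun s => (L s)⁻¹) σ := by
  obtain ⟨Λ, h1, h2⟩ := h
  exact ⟨fun s => (Λ s)⁻¹, fun s => (h1 s).inv, fun s hs => by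
    show (Λ s)⁻¹ = _
    rw [h2 s hs]⟩

lemma Mero.zpow {L : ℂ → ℂ} {σ : ℝ} (h : Mero L σ) (m : ℤ) : Mero (fun s => L s ^ m) σ := by
  obtain ⟨Λ, h1, h2⟩ := h
  exact ⟨fun s => Λ s ^ m, fun s => (h1 s).zpow m, fun s hs => by
    show Λ s ^ m = _
    rw [h2 s hs]⟩

lemma Mero.pow {L : ℂ → ℂ} {σ : ℝ} (h : Mero L σ) (m : ℕ) : Mero (fun s => L s ^ m) σ := by
  have := h.zpow (m : ℤ)
  simpa using this

lemma Mero.finset_prod {ι : Type} {L : ι → ℂ → ℂ} {σ : ℝ} (F : Finset ι)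
    (h : ∀ i ∈ F, Mero (L i) σ) : Mero (fun s => ∏ i ∈ F, L i s) σ := by
  classical
  induction F using Finset.induction_on with
  | empty => simpa using Mero.const 1 σ
  | insert a F ha ih =>
    simp_rw [Finset.prod_insert ha]
    exact (h a (Finset.mem_insert_self _ _)).mul (ih fun i hi => h i (Finset.mem_insert_of_mem hi))

lemma Mero.comp_add {L : ℂ → ℂ} {σ : ℝ} (h : Mero L σ) (a : ℂ) :
    Mero (fun s => L (s + a)) (σ - a.re) := by
  obtain ⟨Λ, h1, h2⟩ := h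
  refine ⟨fun s => Λ (s + a), fun s => ?_, fun s hs => h2 _ ?_⟩
  · exact (h1 (s + a)).comp_analyticAt (g := fun s : ℂ => s + a) (by fun_prop)
  · rw [Complex.add_re]
    linarith

lemma meromorphicAt_lf (c : ℂ →₀ ℤ) {q : ℕ} (hq : q ≠ 0) (s : ℂ) :
    MeromorphicAt (fun s : ℂ => lf c ((q : ℂ) ^ (-s))) s := by
  unfold lf Finsupp.prod
  refine MeromorphicAt.fun_prod fun z _ => ?_
  have h1 : AnalyticAt ℂ (fun s : ℂ => (1 : ℂ) - z * (q : ℂ) ^ (-s)) s := by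
    have h2 : AnalyticAt ℂ (fun s : ℂ => (q : ℂ) ^ (-s)) s := by
      have h3 : (fun s : ℂ => (q : ℂ) ^ (-s)) =
          fun s : ℂ => Complex.exp (Complex.log (q : ℂ) * (-s)) := by
        funext s
        rw [Complex.cpow_def_of_ne_zero (by exact_mod_cast hq)]
      rw [h3]
      fun_prop
    exact analyticAt_const.sub (analyticAt_const.mul h2)
  exact h1.meromorphicAt.zpow _

open Classical in
/-- Removing the Euler factors at finitely many primes. -/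
theorem LW_enlarge {S S' : Finset (HeightOneSpectrum (𝓞 K))}
    {c : HeightOneSpectrum (𝓞 K) → ℂ →₀ ℤ} (hS : S ⊆ S') (hB : Bdd S c) {w : ℕ} {s : ℂ}
    (hs : (w : ℝ) / 2 + 1 < s.re) :
    LW S c w s = LW S' c w s *
      ∏ v ∈ S'.filter (fun v => v ∉ S), lf (wpart (nv v) w (c v)) ((nv v : ℂ) ^ (-s)) := by
  classical
  have h1 := LW_multipliable (bdd_mono hB hS) hs
  set g : HeightOneSpectrum (𝓞 K) → ℂ := fun v => if v ∈ S' ∧ v ∉ S then
    lf (wpart (nv v) w (c v)) ((nv v : ℂ) ^ (-s)) else 1 with hg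
  have h2 : HasProd g (∏ v ∈ S'.filter (fun v => v ∉ S), g v) := by
    refine hasProd_prod_of_ne_finset_one fun v hv => ?_
    have : ¬(v ∈ S' ∧ v ∉ S) := fun h => hv (Finset.mem_filter.2 h)
    simp only [hg, if_neg this]
  have h3 : ∏ v ∈ S'.filter (fun v => v ∉ S), g v =
      ∏ v ∈ S'.filter (fun v => v ∉ S), lf (wpart (nv v) w (c v)) ((nv v : ℂ) ^ (-s)) := by
    refine Finset.prod_congr rfl fun v hv => ?_
    simp only [hg, if_pos (Finset.mem_filter.1 hv)]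
  rw [← h3, ← h2.tprod_eq]
  unfold LW
  rw [← h1.tprod_mul h2.multipliable]
  refine tprod_congr fun v => ?_
  by_cases hv : v ∈ S
  · have hv' : v ∈ S' := hS hv
    simp only [hg]
    rw [if_pos hv, if_pos hv', if_neg (fun h => h.2 hv), one_mul]
  · by_cases hv' : v ∈ S'
    · simp only [hg]
      rw [if_neg hv, if_pos hv', if_pos ⟨hv', hv⟩, one_mul]
    · simp only [hg]
      rw [if_neg hv, if_neg hv', if_neg (fun h => hv' h.1), mul_one]

theorem Mero_enlarge {S S' : Finset (HeightOneSpectrum (𝓞 K))}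
    {c : HeightOneSpectrum (𝓞 K) → ℂ →₀ ℤ} (hS : S ⊆ S') (hB : Bdd S c) {w : ℕ}
    (h : Mero (LW S' c w) ((w : ℝ) / 2 + 1)) : Mero (LW S c w) ((w : ℝ) / 2 + 1) := by
  classical
  refine (h.mul (Mero.of_meromorphic (L := fun s => ∏ v ∈ S'.filter (fun v => v ∉ S),
    lf (wpart (nv v) w (c v)) ((nv v : ℂ) ^ (-s))) (fun s => ?_) _)).congr
    fun s hs => (LW_enlarge hS hB hs).symm
  exact MeromorphicAt.fun_prod fun v _ => meromorphicAt_lf _ (nv_pos v).ne' s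

/-! ### Telescoping -/

lemma telescope_aux {B : ℕ → ℂ} (hB : ∀ k, B k ≠ 0) (n : ℕ) :
    ∏ k ∈ Finset.range n, (B k / B (k + 1)) ^ (k + 1) =
      (∏ k ∈ Finset.range n, B k) / B n ^ n := by
  induction n with
  | zero => simp
  | succ n ih =>
    rw [Finset.prod_range_succ, Finset.prod_range_succ, ih]
    have h1 := hB n
    have h2 := hB (n + 1)
    have h3 : B n ^ n ≠ 0 := pow_ne_zero _ h1
    have h4 : B (n + 1) ^ (n + 1) ≠ 0 := pow_ne_zero _ h2
    rw [div_pow]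
    field_simp
    ring

theorem telescope {A : ℕ → ℂ} (hA : ∀ k, A k ≠ 0) {m : ℕ} (h1 : ∀ k, m < k → A k = 1) :
    ∏ k ∈ Finset.range (m + 1), (A k * (A (k + 1)) ^ (-2 : ℤ) * A (k + 2)) ^ (k + 1) = A 0 := by
  have hB : ∀ k, A k / A (k + 1) ≠ 0 := fun k => div_ne_zero (hA k) (hA (k + 1))
  have h2 := telescope_aux hB (m + 1)
  have h3 : ∏ k ∈ Finset.range (m + 1), (A k * (A (k + 1)) ^ (-2 : ℤ) * A (k + 2)) ^ (k + 1) =
      ∏ k ∈ Finset.range (m + 1), (A k / A (k + 1) / (A (k + 1) / A (k + 1 + 1))) ^ (k + 1) := by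
    refine Finset.prod_congr rfl fun k _ => ?_
    congr 1
    have e1 := hA (k + 1)
    have e2 := hA (k + 2)
    rw [show k + 1 + 1 = k + 2 from rfl]
    field_simp
  have h4 : ∀ n, ∏ k ∈ Finset.range n, A k / A (k + 1) = A 0 / A n := by
    intro n
    induction n with
    | zero => simp [hA 0]
    | succ n ih =>
      rw [Finset.prod_range_succ, ih]
      have := hA n
      field_simp
  rw [h3, h2, h4, h1 (m + 1) (by omega), h1 (m + 1 + 1) (by omega)]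
  simp

end Pool.Agent.V8H25.CF
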